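import Mathlib

namespace Pool.Agent.Results.MP_d5f0e7_al.Formula

/-- `x` divides `y` in `Γ` -/
def Dv (Γ : AddSubmonoid ℕ) (x y : ℕ) : Prop := ∃ g ∈ Γ, y = x + g

/-- the numbers `m` with the defining property of the omega-value -/
def Good (Γ : AddSubmonoid ℕ) (x : ℕ) : Set ℕ :=
  {m | ∀ (r : ℕ) (a : Fin r → ℕ), (∀ j, a j ∈ Γ) → Dv Γ x (∑ j, a j) →
    ∃ T : Finset (Fin r), T.card ≤ m ∧ Dv Γ x (∑ j ∈ T, a j)}

/-- the formula -/
def val (n k i : ℕ) : ℕ :=
  if i = 0 then
    if k ∣ n - 2 ∧ ¬ (n - 2) / k + 1 ∣ k - 1 then (n - 2) / k + 1 else (n - 2) / k + 2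
  else
    if k ∣ n - 2 ∧ ¬ (n - 2) / k + 2 ∣ i - 1 then (n - 2) / k + 2 else (n - 2) / k + 3

theorem mem_iff (n k y : ℕ) :
    y ∈ AddSubmonoid.closure (Set.Icc n (n + k)) ↔ ∃ q, q * n ≤ y ∧ y ≤ q * n + q * k := by
  constructor
  · intro h
    induction h using AddSubmonoid.closure_induction with
    | mem x hx => exact ⟨1, by simpa using hx⟩
    | zero => exact ⟨0, by simp⟩
    | add x y _ _ hx hy =>
      obtain ⟨a, h1, h2⟩ := hx
      obtain ⟨b, h3, h4⟩ := hy
      exact ⟨a + b, by nlinarith, by nlinarith⟩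
  · rintro ⟨q, h1, h2⟩
    induction q generalizing y with
    | zero =>
      have : y = 0 := by omega
      rw [this]; exact zero_mem _
    | succ q ih =>
      rw [add_one_mul] at h1 h2
      rw [add_one_mul] at h2
      have h3 := ih (y - (n + min k (y - (q * n + n)))) (by omega) (by omega)
      have h4 : n + min k (y - (q * n + n)) ∈ AddSubmonoid.closure (Set.Icc n (n + k)) :=
        AddSubmonoid.subset_closure ⟨by omega, by omega⟩
      have := add_mem h3 h4
      rwa [Nat.sub_add_cancel (by omega)] at this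

theorem gap (n k q y : ℕ) (h1 : q * n + q * k < y) (h2 : y < q * n + n) :
    y ∉ AddSubmonoid.closure (Set.Icc n (n + k)) := by
  rw [mem_iff]
  rintro ⟨p, h3, h4⟩
  rcases Nat.lt_or_ge q p with h | h
  · nlinarith
  · nlinarith [Nat.mul_le_mul_right n h, Nat.mul_le_mul_right k h]

theorem big (n k Q y : ℕ) (hn : 0 < n) (hQ : n ≤ Q * k + k + 1) (h : Q * n + n ≤ y) :
    y ∈ AddSubmonoid.closure (Set.Icc n (n + k)) := by
  rw [mem_iff]
  have h1 := Nat.div_add_mod y n
  have h2 := Nat.mod_lt y hn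
  have h3 : Q + 1 ≤ y / n := (Nat.le_div_iff_mul_le hn).2 (by nlinarith)
  exact ⟨y / n, Nat.div_mul_le_self y n, by nlinarith [Nat.mul_le_mul_right k h3]⟩

theorem upper (Γ : AddSubmonoid ℕ) (n x m : ℕ) (hn : ∀ y ∈ Γ, y ≠ 0 → n ≤ y)
    (h1 : ∀ y, (m + 1) * n ≤ y → Dv Γ x y)
    (h2 : ∃ c, ¬ m ∣ c ∧ ∀ y, m * n ≤ y → Dv Γ x y ∨ y = c) : m ∈ Good Γ x := by
  classical
  intro r a ha hx
  obtain ⟨c, hc, h2⟩ := h2
  obtain ⟨T, hT, hmin⟩ := (Finset.univ.filter fun T : Finset (Fin r) =>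
    Dv Γ x (∑ j ∈ T, a j)).exists_min_image Finset.card
    ⟨Finset.univ, by simpa using hx⟩
  simp only [Finset.mem_filter, Finset.mem_univ, true_and] at hT hmin
  refine ⟨T, ?_, hT⟩
  by_contra hlt
  have no : ∀ j ∈ T, ¬ Dv Γ x (∑ i ∈ T.erase j, a i) := fun j hj h => by
    have := hmin _ h
    have := Finset.card_erase_lt_of_mem hj
    omega
  have pos : ∀ j ∈ T, n ≤ a j := fun j hj => hn _ (ha j) fun h0 => by
    apply no j hj
    rwa [Finset.sum_erase _ h0]
  have lo : ∀ j ∈ T, (T.card - 1) * n ≤ ∑ i ∈ T.erase j, a i := fun j hj => by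
    rw [← Finset.card_erase_of_mem hj]
    exact Finset.card_nsmul_le_sum _ _ _ fun i hi => pos i (Finset.mem_of_mem_erase hi)
  obtain ⟨j, hj⟩ := Finset.card_pos.1 (show 0 < T.card by omega)
  have e : T.card - 1 = m := by
    by_contra h
    exact no j hj (h1 _ ((Nat.mul_le_mul_right n (by omega)).trans (lo j hj)))
  have eq : ∀ i ∈ T, ∑ l ∈ T.erase i, a l = c := fun i hi =>
    (h2 _ (e ▸ lo i hi)).resolve_left (no i hi)
  have same : ∀ i ∈ T.erase j, a i = a j := fun i hi => by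
    have e1 := Finset.add_sum_erase T a (Finset.mem_of_mem_erase hi)
    have e2 := Finset.add_sum_erase T a hj
    rw [eq _ (Finset.mem_of_mem_erase hi)] at e1
    rw [eq _ hj] at e2
    omega
  apply hc
  rw [← eq j hj, Finset.sum_congr rfl same, Finset.sum_const, Finset.card_erase_of_mem hj, e]
  exact Dvd.intro _ rfl

theorem lower (Γ : AddSubmonoid ℕ) (x m A ρ : ℕ) (hρ : ρ ≤ m) (hA : A ∈ Γ)
    (hA' : 0 < ρ → A + 1 ∈ Γ) (h1 : Dv Γ x (m * A + ρ + A)) (h2 : ¬ Dv Γ x (m * A + ρ))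
    (h3 : 0 < ρ → ¬ Dv Γ x (m * A + ρ - 1)) (N : ℕ) (hN : N ∈ Good Γ x) : m + 1 ≤ N := by
  let a : Fin (m + 1) → ℕ := fun j => A + if j.val < ρ then 1 else 0
  have ha : ∀ j, a j ∈ Γ := fun j => by
    simp only [a]
    split_ifs with h
    · exact hA' (by omega)
    · exact hA
  have hs : ∑ j, a j = m * A + ρ + A := by
    rw [Finset.sum_add_distrib, Fin.sum_univ_eq_sum_range (fun j => if j < ρ then 1 else 0),
      Finset.sum_boole]
    have : (Finset.range (m + 1)).filter (· < ρ) = Finset.range ρ := by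
      ext j; simp; omega
    rw [this]
    simp; ring
  obtain ⟨T, hT, g, hg, e⟩ := hN _ a ha (hs ▸ h1)
  by_contra hlt
  obtain ⟨j, hj⟩ : ∃ j, j ∉ T := by
    by_contra h
    push Not at h
    rw [Finset.eq_univ_iff_forall.2 h] at hT
    simp at hT
    omega
  have sub : T ⊆ Finset.univ.erase j := fun i hi =>
    Finset.mem_erase.2 ⟨fun h => hj (h ▸ hi), Finset.mem_univ _⟩
  have d : Dv Γ x (∑ i ∈ Finset.univ.erase j, a i) :=
    ⟨g + ∑ i ∈ Finset.univ.erase j \ T, a i, add_mem hg (sum_mem fun i _ => ha i), by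
      rw [← Finset.sum_sdiff sub, e]; ring⟩
  have e2 := Finset.add_sum_erase Finset.univ a (Finset.mem_univ j)
  rw [hs] at e2
  simp only [a] at e2
  split_ifs at e2 with h
  · exact h3 (by omega) (by convert d using 1; simp only [a]; omega)
  · exact h2 (by convert d using 1; simp only [a]; omega)

theorem dv_iff (Γ : AddSubmonoid ℕ) (x y g : ℕ) (h : y = x + g) : Dv Γ x y ↔ g ∈ Γ :=
  ⟨fun ⟨g', h1, h2⟩ => (show g' = g by omega) ▸ h1, fun h1 => ⟨g, h1, h⟩⟩

theorem result (n k i : ℕ) (hn : 2 ≤ n) (hk1 : 1 ≤ k) (hk : k ≤ n - 1) (hi : i ≤ k) :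
    IsLeast (Good (AddSubmonoid.closure (Set.Icc n (n + k))) (n + i)) (val n k i) := by
  set Γ := AddSubmonoid.closure (Set.Icc n (n + k)) with hΓ
  have hpos : ∀ y ∈ Γ, y ≠ 0 → n ≤ y := fun y hy h0 => by
    obtain ⟨q, h1, h2⟩ := (mem_iff n k y).1 hy
    rcases q with _ | q
    · omega
    · nlinarith
  have gen : ∀ d ≤ k, n + d ∈ Γ := fun d hd => AddSubmonoid.subset_closure ⟨by omega, by omega⟩
  unfold val
  have e1 := Nat.div_add_mod (n - 2) k
  have e2 := Nat.mod_lt (n - 2) (show 0 < k by omega)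
  have e0 : k ∣ n - 2 ↔ (n - 2) % k = 0 := Nat.dvd_iff_mod_eq_zero
  simp only [e0]
  clear e0
  generalize (n - 2) / k = Q at *
  generalize (n - 2) % k = t at *
  rw [mul_comm] at e1
  have B : ∀ y, Q * n + n + (n + i) ≤ y → Dv Γ (n + i) y := fun y hy =>
    ⟨y - (n + i), big n k Q _ (by omega) (by omega) (by omega), by omega⟩
  have B' : t = 0 → ∀ y, Q * n + (n + i) ≤ y → Dv Γ (n + i) y ∨ y = Q * n + n + (n + i) - 1 := by
    intro ht y hy
    by_cases h : Q * n + n + (n + i) ≤ y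
    · exact Or.inl (B y h)
    · by_cases h' : y = Q * n + n + (n + i) - 1
      · exact Or.inr h'
      · exact Or.inl ⟨y - (n + i), (mem_iff ..).2 ⟨Q, by omega, by omega⟩, by omega⟩
  have U : ∀ m, 2 ≤ m → (∀ y, m * n ≤ y → Dv Γ (n + i) y) → m ∈ Good Γ (n + i) := fun m hm h =>
    upper Γ n _ m hpos (fun y hy => h y (by nlinarith))
      ⟨1, fun h => by have := Nat.le_of_dvd one_pos h; omega, fun y hy => Or.inl (h y hy)⟩
  have Lw : ∀ m d ρ, ρ ≤ m → d ≤ k → (0 < ρ → d < k ∧ 0 < t) →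
      m * (n + d) + ρ + 1 = Q * n + n + (n + i) →
      ∀ N ∈ Good Γ (n + i), m + 1 ≤ N := fun m d ρ h1 h2 h3 h4 =>
    lower Γ _ m (n + d) ρ h1 (gen d h2) (fun h => gen (d + 1) (h3 h).1) (B _ (by omega))
      (by rw [dv_iff Γ _ _ (Q * n + n - 1) (by omega)]; exact gap n k Q _ (by omega) (by omega))
      (fun h => by
        have := (h3 h).2
        rw [dv_iff Γ _ _ (Q * n + n - 2) (by omega)]; exact gap n k Q _ (by omega) (by omega))
  split_ifs with h0 h1 h1
  · subst h0
    obtain ⟨ht, hd⟩ := h1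
    have k2 : 2 ≤ k := by
      by_contra h
      exact hd (by rw [show k - 1 = 0 by omega]; exact dvd_zero _)
    obtain ⟨Q, rfl⟩ : ∃ P, Q = P + 1 := by
      rcases Q with _ | Q
      · exact absurd (by simp) hd
      · exact ⟨Q, rfl⟩
    refine ⟨upper Γ n _ _ hpos (fun y hy => B y (by nlinarith))
      ⟨_, fun h => hd ?_, fun y hy => B' ht y (by nlinarith)⟩, fun N hN => ?_⟩
    · have e : (Q + 1) * n + n + (n + 0) - 1 + (k - 1) = (Q + 1 + 1) * (n + k) := by
        have : (Q + 1 + 1) * (n + k) = (Q + 1) * n + n + (Q + 1) * k + k := by ring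
        omega
      exact (Nat.dvd_add_right h).1 (e ▸ Dvd.intro _ rfl)
    · have e : (Q + 1) * (n + k) = Q * n + n + (Q + 1) * k := by ring
      have e' : (Q + 1) * k = Q * k + k := by ring
      have e'' : (Q + 1) * n = Q * n + n := by ring
      refine lower Γ _ (Q + 1) (n + k) 0 (by omega) (gen k le_rfl) (by omega) (B _ (by omega)) ?_
        (by omega) N hN
      rw [dv_iff Γ _ _ (Q * n + (Q + 1) * k) (by omega)]
      exact gap n k Q _ (by omega) (by omega)
  · subst h0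
    refine ⟨U _ (by omega) fun y hy => B y (by nlinarith), ?_⟩
    have f1 := Nat.div_add_mod (n - 1) (Q + 1)
    have f2 := Nat.mod_lt (n - 1) (show 0 < Q + 1 by omega)
    have f3 : 0 < (n - 1) % (Q + 1) → 0 < t := fun h => by
      by_contra ht
      have hd : Q + 1 ∣ k - 1 := by
        by_contra hd
        exact h1 ⟨by omega, hd⟩
      have e : k - 1 + (n - 1) = (Q + 1) * k := by
        have : (Q + 1) * k = Q * k + k := by ring
        omega
      have := Nat.mod_eq_zero_of_dvd ((Nat.dvd_add_right hd).1 (e ▸ Dvd.intro _ rfl))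
      omega
    generalize (n - 1) / (Q + 1) = d at *
    generalize (n - 1) % (Q + 1) = ρ at *
    have f4 : (Q + 1) * d + ρ ≤ (Q + 1) * k := by
      have : (Q + 1) * k = Q * k + k := by ring
      omega
    refine Lw (Q + 1) d ρ (by omega) (by nlinarith) (fun h => ⟨by nlinarith, f3 h⟩) ?_
    have : (Q + 1) * (n + d) = Q * n + n + (Q + 1) * d := by ring
    omega
  · obtain ⟨ht, hd⟩ := h1
    have i2 : 2 ≤ i := by
      by_contra h
      exact hd (by rw [show i - 1 = 0 by omega]; exact dvd_zero _)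
    obtain ⟨Q, rfl⟩ : ∃ P, Q = P + 1 := by
      rcases Q with _ | Q
      · omega
      · exact ⟨Q, rfl⟩
    have e' : (Q + 1) * k = Q * k + k := by ring
    have e'' : (Q + 1) * n = Q * n + n := by ring
    have e3 : (Q + 1 + 2) * n = Q * n + n + n + n := by ring
    have e4 : (Q + 1 + 1) * n = Q * n + n + n := by ring
    have e5 : (Q + 1 + 2 + 1) * n = Q * n + n + n + n + n := by ring
    refine ⟨upper Γ n _ _ hpos (fun y hy => B y (by omega))
      ⟨_, fun h => hd ?_, fun y hy => B' ht y (by omega)⟩, fun N hN => ?_⟩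
    · have e : (Q + 1) * n + n + (n + i) - 1 = (Q + 1 + 2) * n + (i - 1) := by omega
      exact (Nat.dvd_add_right (Dvd.intro _ rfl)).1 (e ▸ h)
    · refine lower Γ _ (Q + 1 + 1) n 0 (by omega) (gen 0 (by omega)) (by omega) ?_ ?_
        (by omega) N hN
      · rw [dv_iff Γ _ _ ((Q + 1) * n + n - i) (by omega)]
        exact (mem_iff ..).2 ⟨Q + 1, by omega, by omega⟩
      · rw [dv_iff Γ _ _ (Q * n + n - i) (by omega)]
        exact gap n k Q _ (by omega) (by omega)
  · have e3 : (Q + 3) * n = Q * n + n + n + n := by ring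
    refine ⟨U _ (by omega) fun y hy => B y (by omega), ?_⟩
    have f1 := Nat.div_add_mod (i - 1) (Q + 2)
    have f2 := Nat.mod_lt (i - 1) (show 0 < Q + 2 by omega)
    have f3 : 0 < (i - 1) % (Q + 2) → 0 < t := fun h => by
      by_contra ht
      have hd : Q + 2 ∣ i - 1 := by
        by_contra hd
        exact h1 ⟨by omega, hd⟩
      have := Nat.mod_eq_zero_of_dvd hd
      omega
    generalize (i - 1) / (Q + 2) = d at *
    generalize (i - 1) % (Q + 2) = ρ at *
    have f4 : d < k := by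
      have : (Q + 2) * d = Q * d + 2 * d := by ring
      omega
    refine Lw (Q + 2) d ρ (by omega) f4.le (fun h => ⟨f4, f3 h⟩) ?_
    have : (Q + 2) * (n + d) = Q * n + n + n + (Q + 2) * d := by ring
    omega

end Pool.Agent.Results.MP_d5f0e7_al.Formula
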